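import Mathlib
import Pool.Agent.Helper601.BT

set_option autoImplicit false
set_option maxHeartbeats 4000000

/-! # Small prime factors of the values of integer polynomials at vectors of primes -/

namespace Pool.Agent.U419.PV

open Finset Filter

/-- the primes of `(X, 3X]` -/
noncomputable def P (X : ℝ) : Finset ℕ := (Icc 1 ⌊3 * X⌋₊).filter (fun p : ℕ => p.Prime ∧ X < p)

theorem mem_P (X : ℝ) (hX : 0 ≤ X) (p : ℕ) : p ∈ P X ↔ p.Prime ∧ X < p ∧ (p : ℝ) ≤ 3 * X := by
  unfold P
  rw [mem_filter, mem_Icc]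
  constructor
  · rintro ⟨⟨_, h⟩, h1, h2⟩
    exact ⟨h1, h2, (Nat.le_floor_iff (by linarith)).1 h⟩
  · rintro ⟨h1, h2, h3⟩
    exact ⟨⟨h1.one_lt.le, Nat.le_floor h3⟩, h1, h2⟩

/-- Brun-Titchmarsh for small prime moduli -/
theorem class_count : ∃ C : ℝ, 1 ≤ C ∧ ∀ᶠ X : ℝ in atTop, ∀ r : ℕ, r.Prime → (r : ℝ) ≤ Real.log X →
    ∀ v : ZMod r, (((P X).filter (fun p : ℕ => (p : ZMod r) = v)).card : ℝ) ≤
      C / r * (X / Real.log X) := by
  obtain ⟨C, hC, h⟩ := Pool.Agent.Helper601.brun_titchmarsh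
  refine ⟨6 * C, by linarith, ?_⟩
  filter_upwards [eventually_ge_atTop 3] with X hX r hr hrX v
  have hX0 : 0 < X := by linarith
  have : NeZero r := ⟨hr.ne_zero⟩
  have hr0 : (0 : ℝ) < r := by exact_mod_cast hr.pos
  have hr2 : (2 : ℝ) ≤ r := by exact_mod_cast hr.two_le
  have hL2 : 2 ≤ Real.log X := hr2.trans hrX
  have hL0 : 0 < Real.log X := by linarith
  have hLX : Real.log X ≤ X := (Real.log_le_sub_one_of_pos hX0).trans (by linarith)
  have hLs : Real.log X ≤ 2 * X ^ (1 / 2 : ℝ) := by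
    have := Real.log_le_rpow_div hX0.le (show (0 : ℝ) < 1 / 2 by norm_num)
    linarith
  have hss : X ^ (1 / 2 : ℝ) * X ^ (1 / 2 : ℝ) = X := by
    rw [← Real.rpow_add hX0]; norm_num
  have hs0 : 0 < X ^ (1 / 2 : ℝ) := Real.rpow_pos_of_pos hX0 _
  set m := ⌊X⌋₊ + 1 with hm
  set a := m + (v - (m : ZMod r)).val with ha
  set N := ⌊2 * X / r⌋₊ + 1 with hN
  have hNl : 2 * X / r < N := by
    rw [hN]; push_cast; exact Nat.lt_floor_add_one _
  have hNu : (N : ℝ) ≤ 3 * X / r := by
    have h1 : ((⌊2 * X / r⌋₊ : ℕ) : ℝ) ≤ 2 * X / r := Nat.floor_le (by positivity)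
    have h2 : (1 : ℝ) ≤ X / r := by
      rw [le_div_iff₀ hr0]; linarith
    rw [hN]; push_cast
    have h3 : 3 * X / r = 2 * X / r + X / r := by ring
    linarith
  have hNs : X ^ (1 / 2 : ℝ) ≤ N := by
    refine le_trans ?_ hNl.le
    rw [le_div_iff₀ hr0]
    nlinarith
  have hN2 : 2 ≤ N := by
    have h2 : (1 : ℝ) ≤ X / r := by
      rw [le_div_iff₀ hr0]; linarith
    have h3 : 2 * X / r = 2 * (X / r) := by ring
    have : (2 : ℝ) ≤ N := by linarith
    exact_mod_cast this
  have hsub : (P X).filter (fun p : ℕ => (p : ZMod r) = v) ⊆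
      ((range N).filter (fun k => (a + k * r).Prime)).image (fun k => a + k * r) := by
    intro p hp
    rw [mem_filter, mem_P X hX0.le] at hp
    obtain ⟨⟨hpp, hXp, hp3⟩, hpv⟩ := hp
    have hmp : m ≤ p := by
      rw [hm]
      exact Nat.succ_le_of_lt ((Nat.floor_lt hX0.le).2 hXp)
    have hmX : X < m := by
      rw [hm]; push_cast; exact Nat.lt_floor_add_one _
    have hval : (v - (m : ZMod r)).val = (p - m) % r := by
      rw [← hpv, ← Nat.cast_sub hmp, ZMod.val_natCast]
    have hdm : r * ((p - m) / r) + (p - m) % r = p - m := Nat.div_add_mod _ _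
    have heq : a + (p - m) / r * r = p := by
      rw [ha, hval, mul_comm ((p - m) / r) r]
      omega
    rw [mem_image]
    refine ⟨(p - m) / r, ?_, heq⟩
    rw [mem_filter, mem_range]
    refine ⟨?_, by rw [heq]; exact hpp⟩
    rw [hN]
    apply Nat.lt_succ_of_le
    apply Nat.le_floor
    rw [le_div_iff₀ hr0]
    have h1 : (((p - m) / r * r : ℕ) : ℝ) ≤ ((p - m : ℕ) : ℝ) := by
      exact_mod_cast Nat.div_mul_le_self _ _
    rw [Nat.cast_sub hmp] at h1
    push_cast at h1
    linarith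
  have h1 := h a r N hN2 (Or.inr hr)
  have h2 : (((P X).filter (fun p : ℕ => (p : ZMod r) = v)).card : ℝ) ≤
      (((range N).filter (fun k => (a + k * r).Prime)).card : ℝ) := by
    exact_mod_cast (card_le_card hsub).trans card_image_le
  refine (h2.trans h1).trans ?_
  have hlogN : Real.log X / 2 ≤ Real.log N := by
    have := Real.log_le_log hs0 hNs
    rw [Real.log_rpow hX0] at this
    linarith
  have hlN0 : 0 < Real.log N := by linarith
  rw [div_le_iff₀ hlN0]
  have h3 : 6 * C / r * (X / Real.log X) * Real.log N = (6 * C / r * (X / Real.log X)) * Real.log N := rfl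
  have h4 : (6 * C / r * (X / Real.log X)) * (Real.log X / 2) ≤ (6 * C / r * (X / Real.log X)) * Real.log N :=
    mul_le_mul_of_nonneg_left hlogN (by positivity)
  have h5 : (6 * C / r * (X / Real.log X)) * (Real.log X / 2) = C * (3 * X / r) := by
    field_simp
    ring
  calc C * (N : ℝ) ≤ C * (3 * X / r) := mul_le_mul_of_nonneg_left hNu (by linarith)
    _ ≤ _ := by rw [← h5]; exact h4

/-- Schwartz-Zippel modulo `r` -/
theorem zero_count (k D r : ℕ) (hr : r.Prime) (f : MvPolynomial (Fin k) (ZMod r)) (hf : f ≠ 0)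
    (hD : f.totalDegree ≤ D) :
    haveI : NeZero r := ⟨hr.ne_zero⟩
    (((univ : Finset (Fin k → ZMod r)).filter (fun v => MvPolynomial.eval v f = 0)).card : ℝ) ≤
      D * (r : ℝ) ^ k / r := by
  have : NeZero r := ⟨hr.ne_zero⟩
  have : Fact r.Prime := ⟨hr⟩
  have hr0 : (0 : ℝ) < r := by exact_mod_cast hr.pos
  have h := MvPolynomial.schwartz_zippel_totalDegree hf (univ : Finset (ZMod r))
  rw [Fintype.piFinset_univ, card_univ, ZMod.card] at h
  have h2 := (NNRat.cast_le (K := ℝ)).2 h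
  push_cast at h2
  rw [div_le_iff₀ (by positivity)] at h2
  have h3 : (f.totalDegree : ℝ) ≤ D := by exact_mod_cast hD
  calc _ ≤ (f.totalDegree : ℝ) / r * (r : ℝ) ^ k := h2
    _ ≤ (D : ℝ) / r * (r : ℝ) ^ k := by gcongr
    _ = _ := by ring

/-- the value of `G` at a vector of natural numbers -/
noncomputable def ev {k : ℕ} (G : MvPolynomial (Fin k) ℤ) (p : Fin k → ℕ) : ℤ :=
  MvPolynomial.eval (fun i => (p i : ℤ)) G

theorem ev_cast {k : ℕ} (G : MvPolynomial (Fin k) ℤ) (p : Fin k → ℕ) (r : ℕ) :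
    ((ev G p : ℤ) : ZMod r) =
      MvPolynomial.eval (fun i => (p i : ZMod r)) (MvPolynomial.map (Int.castRingHom (ZMod r)) G) := by
  unfold ev
  rw [MvPolynomial.eval_map, ← MvPolynomial.coe_eval₂Hom]
  have : ((MvPolynomial.eval (fun i => (p i : ℤ)) G : ℤ) : ZMod r) =
      (Int.castRingHom (ZMod r)) (MvPolynomial.eval (fun i => (p i : ℤ)) G) := rfl
  rw [this, MvPolynomial.eval, MvPolynomial.coe_eval₂Hom, MvPolynomial.coe_eval₂Hom, MvPolynomial.hom_eval₂]
  simp

theorem totalDegree_map_le' {R S : Type} [CommSemiring R] [CommSemiring S] {k : ℕ} (f : R →+* S)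
    (G : MvPolynomial (Fin k) R) : (MvPolynomial.map f G).totalDegree ≤ G.totalDegree :=
  Finset.sup_mono (MvPolynomial.support_map_subset f G)

/-- the number of prime vectors with `r ∣ G` -/
theorem box_count (k D r : ℕ) (hr : r.Prime) (G : MvPolynomial (Fin k) ℤ)
    (hG : MvPolynomial.map (Int.castRingHom (ZMod r)) G ≠ 0) (hD : G.totalDegree ≤ D) (S : Finset ℕ) (M : ℝ)
    (hM : ∀ v : ZMod r, ((S.filter (fun p : ℕ => (p : ZMod r) = v)).card : ℝ) ≤ M) :
    (((Fintype.piFinset (fun _ : Fin k => S)).filter (fun p => (r : ℤ) ∣ ev G p)).card : ℝ) ≤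
      D * (r : ℝ) ^ k / r * M ^ k := by
  classical
  have : NeZero r := ⟨hr.ne_zero⟩
  set Z := (univ : Finset (Fin k → ZMod r)).filter (fun v => MvPolynomial.eval v
    (MvPolynomial.map (Int.castRingHom (ZMod r)) G) = 0) with hZ
  have hZc := zero_count k D r hr _ hG ((totalDegree_map_le' _ G).trans hD)
  rw [← hZ] at hZc
  have hsub : (Fintype.piFinset (fun _ : Fin k => S)).filter (fun p => (r : ℤ) ∣ ev G p) ⊆
      Z.biUnion (fun v => Fintype.piFinset (fun i : Fin k => S.filter (fun p : ℕ => (p : ZMod r) = v i))) := by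
    intro p hp
    rw [mem_filter, Fintype.mem_piFinset] at hp
    rw [mem_biUnion]
    refine ⟨fun i => (p i : ZMod r), ?_, ?_⟩
    · rw [hZ, mem_filter]
      refine ⟨mem_univ _, ?_⟩
      rw [← ev_cast]
      exact (ZMod.intCast_zmod_eq_zero_iff_dvd _ _).2 hp.2
    · rw [Fintype.mem_piFinset]
      intro i
      rw [mem_filter]
      exact ⟨hp.1 i, rfl⟩
  have hM0 : 0 ≤ M := le_trans (Nat.cast_nonneg _) (hM 0)
  calc _ ≤ ((Z.biUnion (fun v => Fintype.piFinset
        (fun i : Fin k => S.filter (fun p : ℕ => (p : ZMod r) = v i)))).card : ℝ) := by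
        exact_mod_cast card_le_card hsub
    _ ≤ ∑ v ∈ Z, ((Fintype.piFinset (fun i : Fin k => S.filter (fun p : ℕ => (p : ZMod r) = v i))).card : ℝ) := by
        exact_mod_cast card_biUnion_le
    _ ≤ ∑ v ∈ Z, M ^ k := by
        apply sum_le_sum
        intro v _
        rw [Fintype.card_piFinset]
        push_cast
        calc _ ≤ ∏ _i : Fin k, M := prod_le_prod (fun i _ => Nat.cast_nonneg _) (fun i _ => hM _)
          _ = M ^ k := by rw [prod_const, card_univ, Fintype.card_fin]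
    _ = (Z.card : ℝ) * M ^ k := by rw [sum_const, nsmul_eq_mul]
    _ ≤ _ := by gcongr

/-- Markov's inequality for weighted events -/
theorem markov {α : Type} (V : Finset α) (R : Finset ℕ) (A : ℕ → α → Prop) [∀ r, DecidablePred (A r)]
    [∀ x, DecidablePred (fun r => A r x)] (w : ℕ → ℝ) (hw : ∀ r ∈ R, 0 ≤ w r) (T : ℝ) :
    T * ((V.filter (fun x => T < ∑ r ∈ R.filter (fun r => A r x), w r)).card : ℝ) ≤
      ∑ r ∈ R, w r * ((V.filter (A r)).card : ℝ) := by
  calc T * ((V.filter (fun x => T < ∑ r ∈ R.filter (fun r => A r x), w r)).card : ℝ)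
      = ∑ x ∈ V.filter (fun x => T < ∑ r ∈ R.filter (fun r => A r x), w r), T := by
        rw [sum_const, nsmul_eq_mul, mul_comm]
    _ ≤ ∑ x ∈ V.filter (fun x => T < ∑ r ∈ R.filter (fun r => A r x), w r),
          ∑ r ∈ R.filter (fun r => A r x), w r := by
        apply sum_le_sum
        intro x hx
        rw [mem_filter] at hx
        exact hx.2.le
    _ ≤ ∑ x ∈ V, ∑ r ∈ R.filter (fun r => A r x), w r := by
        apply sum_le_sum_of_subset_of_nonneg (filter_subset _ _)
        intro x _ _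
        exact sum_nonneg fun r hr => hw r (mem_filter.1 hr).1
    _ = ∑ x ∈ V, ∑ r ∈ R, (if A r x then w r else 0) := by
        apply sum_congr rfl
        intro x _
        rw [sum_filter]
    _ = ∑ r ∈ R, ∑ x ∈ V, (if A r x then w r else 0) := sum_comm
    _ = ∑ r ∈ R, w r * ((V.filter (A r)).card : ℝ) := by
        apply sum_congr rfl
        intro r _
        rw [← sum_filter, sum_const, nsmul_eq_mul, mul_comm]

theorem sum_inv_sq (R : Finset ℕ) (hR : ∀ r ∈ R, 2 ≤ r) : ∑ r ∈ R, 1 / (r : ℝ) ^ 2 ≤ 1 := by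
  have hsub : R ⊆ Ioc 1 (R.sup id + 1) := by
    intro r hr
    rw [mem_Ioc]
    exact ⟨hR r hr, (le_sup (f := id) hr).trans (Nat.le_succ _)⟩
  calc ∑ r ∈ R, 1 / (r : ℝ) ^ 2 ≤ ∑ r ∈ Ioc 1 (R.sup id + 1), 1 / (r : ℝ) ^ 2 :=
        sum_le_sum_of_subset_of_nonneg hsub fun _ _ _ => by positivity
    _ = ∑ r ∈ Ioc 1 (R.sup id + 1), ((r : ℝ) ^ 2)⁻¹ := by simp only [one_div]
    _ ≤ ((1 : ℕ) : ℝ)⁻¹ - ((R.sup id + 1 : ℕ) : ℝ)⁻¹ := sum_Ioc_inv_sq_le_sub one_ne_zero (by omega)
    _ ≤ 1 := by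
        have : (0 : ℝ) ≤ ((R.sup id + 1 : ℕ) : ℝ)⁻¹ := by positivity
        simp only [Nat.cast_one, inv_one]
        linarith

theorem sum_inv (R : Finset ℕ) (y : ℝ) (hy : 1 ≤ y) (hR : ∀ r ∈ R, 1 ≤ r ∧ (r : ℝ) ≤ y) :
    ∑ r ∈ R, 1 / (r : ℝ) ≤ 1 + Real.log y := by
  have hsub : R ⊆ Icc 1 ⌊y⌋₊ := by
    intro r hr
    rw [mem_Icc]
    exact ⟨(hR r hr).1, Nat.le_floor (hR r hr).2⟩
  calc ∑ r ∈ R, 1 / (r : ℝ) ≤ ∑ r ∈ Icc 1 ⌊y⌋₊, 1 / (r : ℝ) :=
        sum_le_sum_of_subset_of_nonneg hsub fun _ _ _ => by positivity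
    _ = ((harmonic ⌊y⌋₊ : ℚ) : ℝ) := by
        rw [harmonic_eq_sum_Icc]
        push_cast
        simp only [one_div]
    _ ≤ 1 + Real.log y := harmonic_floor_le_one_add_log y hy

/-- Most vectors of primes of `(X, 3X]` give a nonzero value of `G` with few small prime factors besides
those dividing all the coefficients. -/
theorem typical (k D : ℕ) (ε : ℝ) (hε : 0 < ε)
    (hmany : ∀ᶠ X : ℝ in atTop, X / (4 * Real.log X) ≤ ((P X).card : ℝ)) :
    ∃ T : ℝ, 0 < T ∧ ∀ᶠ X : ℝ in atTop, ∀ G : MvPolynomial (Fin k) ℤ, G ≠ 0 → G.totalDegree ≤ D →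
      ∃ E : Finset (Fin k → ℕ), (E.card : ℝ) ≤ ε * ((P X).card : ℝ) ^ k ∧
        ∀ p ∈ Fintype.piFinset (fun _ : Fin k => P X), p ∉ E → ev G p ≠ 0 ∧
          ∀ s : Finset ℕ, (∀ r ∈ s, r.Prime ∧ (r : ℤ) ∣ ev G p ∧ (r : ℝ) ≤ Real.log X ∧
            MvPolynomial.map (Int.castRingHom (ZMod r)) G ≠ 0) →
            (s.card : ℝ) ≤ (Real.log (Real.log X)) ^ 2 ∧ ∑ r ∈ s, (1 : ℝ) / r ≤ T := by
  classical
  obtain ⟨C, hC, hcl⟩ := class_count
  set B : ℝ := D * (4 * C) ^ k + 1 with hB
  have hB0 : 0 < B := by positivity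
  refine ⟨3 * B / ε, by positivity, ?_⟩
  have hLL : Tendsto (fun X : ℝ => Real.log (Real.log X)) atTop atTop :=
    Real.tendsto_log_atTop.comp Real.tendsto_log_atTop
  have hPinf : Tendsto (fun X : ℝ => ((P X).card : ℝ)) atTop atTop := by
    apply tendsto_atTop_mono' _ hmany
    have h1 : Tendsto (fun X : ℝ => Real.log X / X) atTop (nhds 0) := by
      have := Real.isLittleO_log_id_atTop.tendsto_div_nhds_zero
      simpa using this
    have h2 : Tendsto (fun X : ℝ => 4 * (Real.log X / X)) atTop (nhds 0) := by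
      simpa using h1.const_mul 4
    have h3 : ∀ᶠ X : ℝ in atTop, 0 < 4 * (Real.log X / X) := by
      filter_upwards [eventually_gt_atTop 1] with X hX
      have := Real.log_pos hX
      positivity
    have h4 := (tendsto_nhdsWithin_iff.2 ⟨h2, h3⟩).inv_tendsto_nhdsGT_zero
    refine h4.congr' ?_
    filter_upwards [eventually_gt_atTop 1] with X hX
    have := Real.log_pos hX
    simp only [Pi.inv_apply]
    field_simp
  filter_upwards [hcl, hmany, eventually_ge_atTop 3, Real.tendsto_log_atTop.eventually_ge_atTop 3,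
    hLL.eventually_ge_atTop (6 * B / ε + 1), hPinf.eventually_ge_atTop (3 * B / ε)] with X hX1 hX2 hX3 hX4 hX5 hX6
    G hG hGD
  have hX0 : 0 < X := by linarith
  have hL0 : 0 < Real.log X := by linarith
  set V := Fintype.piFinset (fun _ : Fin k => P X) with hV
  set N : ℝ := ((P X).card : ℝ) with hN
  have hN0 : 0 < N := lt_of_lt_of_le (by positivity) hX6
  set R := (Icc 1 ⌊Real.log X⌋₊).filter (fun r : ℕ => r.Prime ∧
    MvPolynomial.map (Int.castRingHom (ZMod r)) G ≠ 0) with hR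
  have hRmem : ∀ r, r ∈ R ↔ (r.Prime ∧ (r : ℝ) ≤ Real.log X ∧
      MvPolynomial.map (Int.castRingHom (ZMod r)) G ≠ 0) := by
    intro r
    rw [hR, mem_filter, mem_Icc]
    constructor
    · rintro ⟨⟨_, h⟩, h1, h2⟩
      exact ⟨h1, (Nat.le_floor_iff hL0.le).1 h, h2⟩
    · rintro ⟨h1, h2, h3⟩
      exact ⟨⟨h1.one_lt.le, Nat.le_floor h2⟩, h1, h3⟩
  set A : ℕ → (Fin k → ℕ) → Prop := fun r p => (r : ℤ) ∣ ev G p with hA
  -- the number of vectors with `r ∣ G`
  have hcount : ∀ r ∈ R, ((V.filter (A r)).card : ℝ) ≤ B / r * N ^ k := by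
    intro r hr
    obtain ⟨h1, h2, h3⟩ := (hRmem r).1 hr
    have hr0 : (0 : ℝ) < r := by exact_mod_cast h1.pos
    have h4 := box_count k D r h1 G h3 hGD (P X) (C / r * (X / Real.log X)) (hX1 r h1 h2)
    refine h4.trans ?_
    have h5 : X / Real.log X ≤ 4 * N := by
      rw [div_le_iff₀ (by positivity)] at hX2
      rw [div_le_iff₀ hL0]
      linarith
    calc (D : ℝ) * (r : ℝ) ^ k / r * (C / r * (X / Real.log X)) ^ k
        ≤ (D : ℝ) * (r : ℝ) ^ k / r * (C / r * (4 * N)) ^ k := by gcongr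
      _ = (D * (4 * C) ^ k) / r * N ^ k := by
          rw [mul_pow, div_pow, mul_pow, mul_pow]
          field_simp
      _ ≤ B / r * N ^ k := by
          gcongr
          rw [hB]
          linarith
  -- first exceptional set
  set E1 := V.filter (fun x => 3 * B / ε < ∑ r ∈ R.filter (fun r => A r x), 1 / (r : ℝ)) with hE1
  have hE1c : (E1.card : ℝ) ≤ ε / 3 * N ^ k := by
    have h1 := markov V R A (fun r => 1 / (r : ℝ)) (fun r _ => by positivity) (3 * B / ε)
    have h2 : ∑ r ∈ R, 1 / (r : ℝ) * ((V.filter (A r)).card : ℝ) ≤ B * N ^ k := by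
      calc ∑ r ∈ R, 1 / (r : ℝ) * ((V.filter (A r)).card : ℝ)
          ≤ ∑ r ∈ R, 1 / (r : ℝ) * (B / r * N ^ k) := by
            apply sum_le_sum
            intro r hr
            exact mul_le_mul_of_nonneg_left (hcount r hr) (by positivity)
        _ = (∑ r ∈ R, 1 / (r : ℝ) ^ 2) * (B * N ^ k) := by
            rw [sum_mul]
            apply sum_congr rfl
            intro r hr
            have hr0 : (0 : ℝ) < r := by exact_mod_cast ((hRmem r).1 hr).1.pos
            field_simp
        _ ≤ 1 * (B * N ^ k) := by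
            apply mul_le_mul_of_nonneg_right _ (by positivity)
            exact sum_inv_sq R fun r hr => ((hRmem r).1 hr).1.two_le
        _ = _ := one_mul _
    have h3 : 3 * B / ε * (E1.card : ℝ) ≤ B * N ^ k := by
      exact h1.trans h2
    have h4 : (E1.card : ℝ) = (ε / (3 * B)) * (3 * B / ε * (E1.card : ℝ)) := by
      field_simp
    rw [h4]
    calc _ ≤ (ε / (3 * B)) * (B * N ^ k) := mul_le_mul_of_nonneg_left h3 (by positivity)
      _ = _ := by field_simp
  -- second exceptional set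
  set LL := Real.log (Real.log X) with hLLd
  have hLL1 : 1 ≤ LL := by
    have : 0 < 6 * B / ε := by positivity
    linarith
  set E2 := V.filter (fun x => LL ^ 2 < ∑ r ∈ R.filter (fun r => A r x), (1 : ℝ)) with hE2
  have hE2c : (E2.card : ℝ) ≤ ε / 3 * N ^ k := by
    have h1 := markov V R A (fun _ => (1 : ℝ)) (fun r _ => by positivity) (LL ^ 2)
    have h2 : ∑ r ∈ R, 1 * ((V.filter (A r)).card : ℝ) ≤ (1 + LL) * (B * N ^ k) := by
      calc ∑ r ∈ R, 1 * ((V.filter (A r)).card : ℝ)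
          ≤ ∑ r ∈ R, 1 / (r : ℝ) * (B * N ^ k) := by
            apply sum_le_sum
            intro r hr
            rw [one_mul]
            refine (hcount r hr).trans (le_of_eq ?_)
            ring
        _ = (∑ r ∈ R, 1 / (r : ℝ)) * (B * N ^ k) := by rw [sum_mul]
        _ ≤ _ := by
            apply mul_le_mul_of_nonneg_right _ (by positivity)
            exact sum_inv R _ (by linarith) fun r hr =>
              ⟨((hRmem r).1 hr).1.one_lt.le, ((hRmem r).1 hr).2.1⟩
    have h3 : LL ^ 2 * (E2.card : ℝ) ≤ (1 + LL) * (B * N ^ k) := by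
      exact h1.trans h2
    have h4 : (1 + LL) * B ≤ LL ^ 2 * (ε / 3) := by
      have h5 : 6 * B ≤ LL * ε := by
        have : 6 * B / ε ≤ LL := by linarith
        rwa [div_le_iff₀ hε] at this
      nlinarith
    have h6 : LL ^ 2 * (E2.card : ℝ) ≤ LL ^ 2 * (ε / 3 * N ^ k) := by
      calc _ ≤ (1 + LL) * (B * N ^ k) := h3
        _ = ((1 + LL) * B) * N ^ k := by ring
        _ ≤ (LL ^ 2 * (ε / 3)) * N ^ k := mul_le_mul_of_nonneg_right h4 (by positivity)
        _ = _ := by ring
    exact le_of_mul_le_mul_left h6 (by positivity)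
  -- third exceptional set
  set E3 := V.filter (fun x => ev G x = 0) with hE3
  have hE3c : (E3.card : ℝ) ≤ ε / 3 * N ^ k := by
    set S : Finset ℤ := (P X).image (fun p : ℕ => (p : ℤ)) with hS
    have hScard : S.card = (P X).card := card_image_of_injective _ Nat.cast_injective
    have h := MvPolynomial.schwartz_zippel_totalDegree hG S
    have h2 := (NNRat.cast_le (K := ℝ)).2 h
    push_cast at h2
    rw [hScard, ← hN, div_le_iff₀ (by positivity)] at h2
    have h3 : E3.card ≤ ((Fintype.piFinset (fun _ : Fin k => S)).filter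
        (fun f => MvPolynomial.eval f G = 0)).card := by
      apply card_le_card_of_injOn (fun p => fun i => (p i : ℤ))
      · intro p hp
        rw [hE3, mem_coe, mem_filter, hV, Fintype.mem_piFinset] at hp
        rw [mem_coe, mem_filter, Fintype.mem_piFinset]
        exact ⟨fun i => mem_image.2 ⟨p i, hp.1 i, rfl⟩, hp.2⟩
      · intro p _ q _ hpq
        funext i
        have := congrFun hpq i
        simpa using this
    have h4 : (G.totalDegree : ℝ) ≤ B := by
      have h5 : (G.totalDegree : ℝ) ≤ D := by exact_mod_cast hGD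
      have h6 : (1 : ℝ) ≤ (4 * C) ^ k := one_le_pow₀ (by linarith)
      have h7 : (D : ℝ) * 1 ≤ D * (4 * C) ^ k := mul_le_mul_of_nonneg_left h6 (Nat.cast_nonneg _)
      rw [hB]
      linarith
    calc (E3.card : ℝ) ≤ (((Fintype.piFinset (fun _ : Fin k => S)).filter
          (fun f => MvPolynomial.eval f G = 0)).card : ℝ) := by exact_mod_cast h3
      _ ≤ (G.totalDegree : ℝ) / N * N ^ k := h2
      _ ≤ ε / 3 * N ^ k := by
          apply mul_le_mul_of_nonneg_right _ (by positivity)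
          rw [div_le_iff₀ hN0]
          have : 3 * B / ε ≤ N := hX6
          rw [div_le_iff₀ hε] at this
          linarith
  refine ⟨E1 ∪ E2 ∪ E3, ?_, ?_⟩
  · have h1 : ((E1 ∪ E2 ∪ E3).card : ℝ) ≤ (E1.card : ℝ) + E2.card + E3.card := by
      exact_mod_cast (card_union_le _ _).trans (Nat.add_le_add_right (card_union_le _ _) _)
    linarith
  · intro p hp hpE
    have hp1 : p ∉ E1 := fun h => hpE (mem_union_left _ (mem_union_left _ h))
    have hp2 : p ∉ E2 := fun h => hpE (mem_union_left _ (mem_union_right _ h))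
    have hp3 : p ∉ E3 := fun h => hpE (mem_union_right _ h)
    refine ⟨fun h => hp3 (mem_filter.2 ⟨hp, h⟩), fun s hs => ?_⟩
    have hsub : s ⊆ R.filter (fun r => A r p) := by
      intro r hr
      obtain ⟨h1, h2, h3, h4⟩ := hs r hr
      exact mem_filter.2 ⟨(hRmem r).2 ⟨h1, h3, h4⟩, h2⟩
    constructor
    · have h1 : ∑ r ∈ R.filter (fun r => A r p), (1 : ℝ) ≤ LL ^ 2 := by
        by_contra hcon
        exact hp2 (mem_filter.2 ⟨hp, not_le.1 hcon⟩)
      rw [sum_const, nsmul_eq_mul, mul_one] at h1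
      refine le_trans ?_ h1
      exact_mod_cast card_le_card hsub
    · have h1 : ∑ r ∈ R.filter (fun r => A r p), 1 / (r : ℝ) ≤ 3 * B / ε := by
        by_contra hcon
        exact hp1 (mem_filter.2 ⟨hp, not_le.1 hcon⟩)
      refine le_trans ?_ h1
      exact sum_le_sum_of_subset_of_nonneg hsub fun _ _ _ => by positivity

/-- crude bound for the values of `G` -/
theorem ev_bound (k D : ℕ) : ∀ᶠ X : ℝ in atTop, ∀ G : MvPolynomial (Fin k) ℤ, G.totalDegree ≤ D →
    (∀ m, |((G.coeff m : ℤ) : ℝ)| ≤ X ^ D) → ∀ p ∈ Fintype.piFinset (fun _ : Fin k => P X),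
    |((ev G p : ℤ) : ℝ)| ≤ X ^ (2 * D + 1) := by
  filter_upwards [eventually_ge_atTop (((D + 1) ^ k * 3 ^ D : ℕ) : ℝ), eventually_ge_atTop 1] with X hX hX1 G hG
    hc p hp
  have hX0 : 0 < X := by linarith
  rw [Fintype.mem_piFinset] at hp
  have hsup : G.support.card ≤ (D + 1) ^ k := by
    have : G.support.card ≤ (Fintype.piFinset (fun _ : Fin k => range (D + 1))).card := by
      apply card_le_card_of_injOn (fun m => fun i => m i)
      · intro m hm
        rw [mem_coe, Fintype.mem_piFinset]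
        intro i
        rw [mem_range]
        have h1 : m i ≤ m.sum (fun _ e => e) := by
          by_cases hi : i ∈ m.support
          · exact single_le_sum (f := fun i => m i) (fun _ _ => Nat.zero_le _) hi
          · rw [Finsupp.notMem_support_iff] at hi
            omega
        have h2 := MvPolynomial.le_totalDegree (mem_coe.1 hm)
        show m i < D + 1
        omega
      · intro m _ m' _ h
        ext i
        exact congrFun h i
    rwa [Fintype.card_piFinset, prod_const, card_univ, Fintype.card_fin, card_range] at this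
  have hev : ((ev G p : ℤ) : ℝ) = ∑ m ∈ G.support, ((G.coeff m : ℤ) : ℝ) * ∏ i, (p i : ℝ) ^ m i := by
    unfold ev
    rw [MvPolynomial.eval_eq']
    push_cast
    rfl
  rw [hev]
  calc |∑ m ∈ G.support, ((G.coeff m : ℤ) : ℝ) * ∏ i, (p i : ℝ) ^ m i|
      ≤ ∑ m ∈ G.support, |((G.coeff m : ℤ) : ℝ) * ∏ i, (p i : ℝ) ^ m i| := abs_sum_le_sum_abs _ _
    _ ≤ ∑ m ∈ G.support, X ^ D * (3 * X) ^ D := by
        apply sum_le_sum
        intro m hm
        rw [abs_mul]
        apply mul_le_mul (hc m) _ (abs_nonneg _) (by positivity)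
        rw [abs_of_nonneg (prod_nonneg fun i _ => by positivity)]
        have h2 := (MvPolynomial.le_totalDegree hm).trans hG
        have h3 : (m.sum fun _ e => e) = ∑ i, m i := by
          rw [Finsupp.sum_fintype _ _ (fun _ => rfl)]
        rw [h3] at h2
        calc ∏ i, (p i : ℝ) ^ m i ≤ ∏ i, (3 * X) ^ m i := by
              apply prod_le_prod (fun i _ => by positivity)
              intro i _
              exact pow_le_pow_left₀ (by positivity) ((mem_P X hX0.le _).1 (hp i)).2.2 _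
          _ = (3 * X) ^ (∑ i, m i) := by rw [prod_pow_eq_pow_sum]
          _ ≤ (3 * X) ^ D := pow_le_pow_right₀ (by linarith) h2
    _ = (G.support.card : ℝ) * (X ^ D * (3 * X) ^ D) := by rw [sum_const, nsmul_eq_mul]
    _ ≤ ((D + 1) ^ k : ℕ) * (X ^ D * (3 * X) ^ D) := by gcongr
    _ = (((D + 1) ^ k * 3 ^ D : ℕ) : ℝ) * X ^ (2 * D) := by
        push_cast
        rw [mul_pow]
        ring
    _ ≤ X * X ^ (2 * D) := by gcongr
    _ = X ^ (2 * D + 1) := by ring

end Pool.Agent.U419.PV
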