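import Pool.Agent.Y678.RG.Prod
import Pool.Agent.U419.PV.Eq

set_option autoImplicit false
set_option maxHeartbeats 4000000

/-! # Record prime-free intervals around the values of polynomials, linear in one variable, at primes -/

namespace Pool.Agent.U419.PV

open Finset Filter
open Pool.Agent.H256R2.SC (ff)

theorem many : ∀ᶠ X : ℝ in atTop, X / (4 * Real.log X) ≤ ((P X).card : ℝ) := by
  filter_upwards [Pool.Agent.Y678.RG.many_primes] with X hX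
  refine hX.trans (le_of_eq ?_)
  unfold P
  congr! 3

theorem main (k J D : ℕ) (A₀ ε : ℝ) (hε : 0 < ε) (d : ℕ) (hd : Squarefree d) :
    ∃ c : ℝ, 0 < c ∧ ∃ X₀ : ℝ, ∀ X : ℝ, X₀ ≤ X → ∀ G : MvPolynomial (Fin k) ℤ, G ≠ 0 → G.totalDegree ≤ D →
      (∀ m, |((G.coeff m : ℤ) : ℝ)| ≤ X ^ D) →
      (∀ s : Finset ℕ, (∀ r ∈ s, r.Prime ∧ (r : ℝ) ≤ Real.log X ∧ ∀ m, (r : ℤ) ∣ G.coeff m) →
        (s.card : ℝ) ≤ D * (Real.log (Real.log X)) ^ 2 ∧ ∑ r ∈ s, (1 : ℝ) / r ≤ A₀) →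
      ({p : Fin k → ℕ | (∀ i, (p i).Prime ∧ X < p i ∧ (p i : ℝ) ≤ 3 * X) ∧
        ¬ ∀ b : ℤ, |(b : ℝ)| ≤ X ^ D → ∀ h : ℕ, h.Coprime d →
          X ^ (7 / 8 : ℝ) ≤ ({q : ℕ | q.Prime ∧ X < q ∧ (q : ℝ) ≤ 3 * X ∧ q ≡ h [MOD d] ∧
            ∀ i j : ℤ, 1 ≤ |i| → |i| ≤ J → 1 ≤ |j| → |j| ≤ J → ∀ l : ℕ, l.Prime → l ≠ q →
              c * ff X < |((j * l - i * (MvPolynomial.eval (fun i => (p i : ℤ)) G * q + b) : ℤ) : ℝ)|}.ncard
                : ℝ)}.ncard : ℝ) ≤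
      ε * ({q : ℕ | q.Prime ∧ X < q ∧ (q : ℝ) ≤ 3 * X}.ncard : ℝ) ^ k := by
  classical
  obtain ⟨T, hT, hty⟩ := typical k D ε hε many
  obtain ⟨c, hc, X₁, hX₁⟩ := Pool.Agent.Y678.RG.multB J (2 * D + 1) (A₀ + T) d hd
  obtain ⟨X₂, hX₂⟩ := eventually_atTop.1 (hty.and (ev_bound k D))
  refine ⟨c, hc, max 1 (max X₁ X₂), fun X hX G hG hGD hco hs => ?_⟩
  have hX1 : 1 ≤ X := (le_max_left _ _).trans hX
  have hX0 : 0 < X := by linarith
  have hXX1 : X₁ ≤ X := ((le_max_left _ _).trans (le_max_right _ _)).trans hX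
  obtain ⟨ht, hb⟩ := hX₂ X (((le_max_right _ _).trans (le_max_right _ _)).trans hX)
  obtain ⟨E, hE, hEp⟩ := ht G hG hGD
  have hPcard : ({q : ℕ | q.Prime ∧ X < q ∧ (q : ℝ) ≤ 3 * X}.ncard : ℝ) = ((P X).card : ℝ) := by
    have : {q : ℕ | q.Prime ∧ X < q ∧ (q : ℝ) ≤ 3 * X} = ((P X : Finset ℕ) : Set ℕ) := by
      ext q
      rw [mem_coe, mem_P X hX0.le]
      rfl
    rw [this, Set.ncard_coe_finset]
  rw [hPcard]
  refine le_trans ?_ hE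
  rw [← Set.ncard_coe_finset E]
  apply Nat.cast_le.2
  apply Set.ncard_le_ncard _ (Finset.finite_toSet E)
  rintro p ⟨hp, hbad⟩
  by_contra hpE
  rw [mem_coe] at hpE
  apply hbad
  intro b hbX h hh
  have hpV : p ∈ Fintype.piFinset (fun _ : Fin k => P X) := by
    rw [Fintype.mem_piFinset]
    exact fun i => (mem_P X hX0.le _).2 (hp i)
  obtain ⟨h1, h2⟩ := hEp p hpV hpE
  have h3 := hb G hGD hco p hpV
  have h4 : |(b : ℝ)| ≤ X ^ (2 * D + 1) :=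
    hbX.trans (pow_le_pow_right₀ hX1 (by omega))
  refine hX₁ X hXX1 (ev G p) b h1 h3 h4 ?_ h hh
  intro s hsp
  obtain ⟨h5, h6⟩ := hs (s.filter (fun r => ∀ m, (r : ℤ) ∣ G.coeff m)) (by
    intro r hr
    rw [mem_filter] at hr
    exact ⟨(hsp r hr.1).1, (hsp r hr.1).2.2, hr.2⟩)
  obtain ⟨h7, h8⟩ := h2 (s.filter (fun r => ¬ ∀ m, (r : ℤ) ∣ G.coeff m)) (by
    intro r hr
    rw [mem_filter] at hr
    refine ⟨(hsp r hr.1).1, (hsp r hr.1).2.1, (hsp r hr.1).2.2, fun h0 => hr.2 fun m => ?_⟩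
    have h9 := congrArg (MvPolynomial.coeff m) h0
    rw [MvPolynomial.coeff_map, MvPolynomial.coeff_zero] at h9
    exact (ZMod.intCast_zmod_eq_zero_iff_dvd _ _).1 h9)
  constructor
  · have h9 : ((s.filter (fun r : ℕ => ∀ m, (r : ℤ) ∣ G.coeff m)).card : ℝ) +
        ((s.filter (fun r : ℕ => ¬ ∀ m, (r : ℤ) ∣ G.coeff m)).card : ℝ) = s.card := by
      rw [← Nat.cast_add]
      congr 1
      exact card_filter_add_card_filter_not (s := s) (fun r : ℕ => ∀ m, (r : ℤ) ∣ G.coeff m)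
    rw [← h9]
    push_cast
    have : 0 ≤ (D : ℝ) * Real.log (Real.log X) ^ 2 := by positivity
    linarith
  · rw [← sum_filter_add_sum_filter_not s (fun r => ∀ m, (r : ℤ) ∣ G.coeff m)]
    linarith

end Pool.Agent.U419.PV
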